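import Pool.Agent.H13.CQ.Brw

set_option autoImplicit false

/-!
Query complexity of the continuous random energy model (CREM) near the algorithmic threshold, with
the optimal exponent: full answer to Q1 in a stronger form.

(1) Q1 itself. (2) The exponential bound `P(τ_N ≤ C N) ≤ exp(-γ N)`, uniformly over all algorithms.
(3) Below the threshold, at the level `(x_* - δ) N`, every search algorithm needs more than
`exp(c δ^(-1/2)) N` queries, outside an event of exponentially small probability; `c` depends only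
on `sup a`. The exponent `1/2` cannot be improved.
(4) For the branching random walk (`a = 1`) this holds in a finite size form, for all `N ≥ 1` and
all `δ` between `K N^(-2/3)` and `δ₀`, outside an event of probability `exp(-δ N)`: so
`exp(c N^(1/3))` queries are needed to come within `K N^(1/3)` of `x_* N`.

The method is the one of the library (blocks of `L` levels and weights of their boundary vertices,
cost exponents `σ x`); new is that the loss per block is a CONSTANT, for `L` of order `(log C)^2`.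
-/

namespace Pool.Agent.Results.MP_f9dad2_pr.OptimalExponent

open MeasureTheory ProbabilityTheory Filter Topology Set
open scoped ENNReal

open Pool.Agent.H654R3.Crem (Vertex meet sigmaF)

universe u

/-- `A(t) = ∫_0^t a(s) ds`. -/
noncomputable def A (a : ℝ → ℝ) (t : ℝ) : ℝ := ∫ s in (0 : ℝ)..t, a s

/-- `x_* = √(2 log 2) ∫_0^1 √(a(t)) dt`. -/
noncomputable def xStar (a : ℝ → ℝ) : ℝ := √(2 * Real.log 2) * ∫ t in (0 : ℝ)..1, √(a t)

/-- `a : [0,1] → [0,∞)` is Riemann integrable, in the form of Lebesgue's criterion (bounded, and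
continuous at almost every point of `[0,1]`), with integral `1`. -/
structure Admissible (a : ℝ → ℝ) : Prop where
  nonneg : ∀ t ∈ Icc (0 : ℝ) 1, 0 ≤ a t
  bounded : ∃ B : ℝ, ∀ t ∈ Icc (0 : ℝ) 1, a t ≤ B
  ae_continuous : ∀ᵐ t ∂(volume.restrict (Icc (0 : ℝ) 1)), ContinuousWithinAt a (Icc (0 : ℝ) 1) t
  integral_eq_one : ∫ t in (0 : ℝ)..1, a t = 1

/-- `(X_v)`, indexed by the vertices of `T_N`, is the centred Gaussian process with
`E[X_v X_w] = N A(|v ∧ w| / N)`. -/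
structure IsCREM {Ω : Type*} [MeasurableSpace Ω] (P : Measure Ω) (a : ℝ → ℝ) (N : ℕ)
    (X : Vertex N → Ω → ℝ) : Prop where
  measurable : ∀ v, Measurable (X v)
  gaussian : IsGaussianProcess X P
  centred : ∀ v, ∫ ω, X v ω ∂P = 0
  covariance : ∀ v w, ∫ ω, X v ω * X w ω ∂P = N * A a (((meet v.1 w.1).length : ℝ) / N)

/-- `v` is a randomised search algorithm on `T_N`: the `U n` are independent, uniform on `[0,1]`
and independent of `X`, and each query is measurable with respect to the sigma-algebra generated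
by the previous queries, the values found there, and the variables `U` available so far. Here
`v n` is query number `n + 1` and `U n` is `U_{n+1}`. -/
structure IsSearch {Ω : Type*} [MeasurableSpace Ω] (P : Measure Ω) {N : ℕ}
    (X : Vertex N → Ω → ℝ) (U : ℕ → Ω → ℝ) (v : ℕ → Ω → Vertex N) : Prop where
  measurable : ∀ n, Measurable (U n)
  uniform : ∀ n, P.map (U n) = volume.restrict (Icc (0 : ℝ) 1)
  independent : iIndepFun U P
  independent_of_X : IndepFun (fun ω w => X w ω) (fun ω n => U n ω) P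
  adapted : ∀ n, Measurable[sigmaF X U v n, ⊤] (v n)

/-- `τ_y`, the number of the first query at a leaf with value at least `y` (infinite if there is
none). -/
noncomputable def hittingTime {Ω : Type*} {N : ℕ} (X : Vertex N → Ω → ℝ)
    (v : ℕ → Ω → Vertex N) (y : ℝ) (ω : Ω) : ℕ∞ :=
  sInf {m : ℕ∞ | ∃ n : ℕ, m = (n + 1 : ℕ) ∧ (v n ω).1.length = N ∧ y ≤ X (v n ω) ω}

lemma hittingTime_mono {Ω : Type*} {N : ℕ} (X : Vertex N → Ω → ℝ)
    (v : ℕ → Ω → Vertex N) {y y' : ℝ} (h : y ≤ y') (ω : Ω) :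
    hittingTime X v y ω ≤ hittingTime X v y' ω := by
  unfold hittingTime
  apply sInf_le_sInf
  rintro m ⟨n, h1, h2, h3⟩
  exact ⟨n, h1, h2, h.trans h3⟩

/-- from the increments of a binary tree and deterministic algorithms with random input to the
definitions above -/
lemma transfer (a : ℝ → ℝ) (N : ℕ) (y Q : ℝ) (bd : ℝ≥0∞)
    (H : ∀ (Ω : Type u) [MeasurableSpace Ω] (P : Measure Ω) [IsProbabilityMeasure P]
      (ξ : List Bool → Ω → ℝ) (U : ℕ → Ω → ℝ), (∀ v, Measurable (ξ v)) → (∀ n, Measurable (U n)) →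
      (iIndepFun (fun i : List Bool ⊕ ℕ => (Sum.elim ξ U i : Ω → ℝ)) P) →
      (∀ w : List Bool, w ≠ [] → w.length ≤ N →
        P.map (ξ w) = gaussianReal 0 (Pool.Agent.H654R3.Crem.incVar a N w.length)) →
      ∀ (alg : Pool.Agent.H654R3.Crem.Algorithm N),
      P {ω | ∃ t : ℕ, (t:ℝ) + 1 ≤ Q ∧
        (Pool.Agent.H654R3.Crem.query alg (Pool.Agent.H654R3.Crem.X (fun v => ξ v ω))
          (fun m => U m ω) t).length = N ∧
        y ≤ Pool.Agent.H654R3.Crem.X (fun v => ξ v ω)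
          (Pool.Agent.H654R3.Crem.query alg (Pool.Agent.H654R3.Crem.X (fun v => ξ v ω))
            (fun m => U m ω) t)} ≤ bd)
    (Ω : Type u) [MeasurableSpace Ω] (P : Measure Ω) [IsProbabilityMeasure P]
    (X : Vertex N → Ω → ℝ) (U : ℕ → Ω → ℝ) (v : ℕ → Ω → Vertex N)
    (hX : IsCREM P a N X) (hv : IsSearch P X U v) :
    P {ω | (hittingTime X v y ω : ℝ≥0∞) ≤ ENNReal.ofReal Q} ≤ bd := by
  -- covariances
  have hcov : ∀ u w : Vertex N, cov[X u, X w; P] =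
      (fun k : ℕ => (N : ℝ) * A a ((k : ℝ) / N)) (meet u.1 w.1).length := by
    intro u w
    rw [covariance, hX.centred, hX.centred]
    simp only [sub_zero]
    exact hX.covariance u w
  -- the increments
  have hlaw : ∀ w : List Bool, w ≠ [] → w.length ≤ N →
      P.map (Pool.Agent.H654R3.Crem.incr X w) =
        gaussianReal 0 (Pool.Agent.H654R3.Crem.incVar a N w.length) := by
    intro w hw hwN
    rw [Pool.Agent.H654R3.Crem.law_incr hX.measurable hX.gaussian hX.centred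
      (fun k : ℕ => (N : ℝ) * A a ((k : ℝ) / N)) hcov hw hwN]
    congr 1
    unfold Pool.Agent.H654R3.Crem.incVar
    congr 1
    have hlen : 1 ≤ w.length := List.length_pos_iff.2 hw
    simp only [A]
    rw [Nat.cast_sub hlen, Nat.cast_one]
    ring
  have hmi : ∀ w, Measurable (Pool.Agent.H654R3.Crem.incr X w) := fun w =>
    Pool.Agent.H654R3.Crem.measurable_incr hX.measurable w
  have hind : iIndepFun (fun i : List Bool ⊕ ℕ =>
      (Sum.elim (fun w => Pool.Agent.H654R3.Crem.incr X w) U i : Ω → ℝ)) P := by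
    refine Pool.Agent.H654R3.Crem.iIndepFun_sumElim
      (Pool.Agent.H654R3.Crem.indep_incr hX.measurable hX.gaussian
        (fun k : ℕ => (N : ℝ) * A a ((k : ℝ) / N)) hcov)
      hv.independent ?_
    have hF : Measurable (fun (z : Vertex N → ℝ) (w : List Bool) =>
        Pool.Agent.H654R3.Crem.incr (fun u z => z u) w z) := by
      apply measurable_pi_lambda
      intro w
      exact Pool.Agent.H654R3.Crem.measurable_incr (fun u => measurable_pi_apply u) w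
    exact hv.independent_of_X.comp hF measurable_id
  obtain ⟨alg, halg⟩ := Pool.Agent.H654R3.Crem.exists_algorithm X U v hv.adapted
  have h1 := H Ω P (fun w => Pool.Agent.H654R3.Crem.incr X w) U hmi
    (fun n => hv.measurable n) hind hlaw alg
  refine le_trans ?_ h1
  apply measure_mono_ae
  have hroot := Pool.Agent.H654R3.Crem.root_zero hX.measurable hX.gaussian hX.centred
    (fun k : ℕ => (N : ℝ) * A a ((k : ℝ) / N)) (by simp [A]) hcov
  filter_upwards [hroot] with ω hω hmem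
  have hmem' : (hittingTime X v y ω : ℝ≥0∞) ≤
      ENNReal.ofReal Q := hmem
  have hne : {m : ℕ∞ | ∃ n : ℕ, m = (n + 1 : ℕ) ∧ (v n ω).1.length = N ∧
      y ≤ X (v n ω) ω}.Nonempty := by
    by_contra hcon
    rw [Set.not_nonempty_iff_eq_empty] at hcon
    unfold hittingTime at hmem'
    rw [hcon, sInf_empty] at hmem'
    simp at hmem'
  obtain ⟨t, ht, hlen, hval⟩ := csInf_mem hne
  have hτ : hittingTime X v y ω = (t + 1 : ℕ) := ht
  rw [hτ] at hmem'
  refine ⟨t, ?_, ?_, ?_⟩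
  · have h1 : ((t + 1 : ℕ) : ℝ≥0∞) ≤ ENNReal.ofReal Q := by
      simpa using hmem'
    have h2 := (ENNReal.natCast_le_ofReal (Nat.succ_ne_zero t)).1 h1
    push_cast at h2
    exact h2
  · show (Pool.Agent.H654R3.Crem.query alg _ _ t).length = N
    rw [halg ω hω t]
    exact hlen
  · show _ ≤ Pool.Agent.H654R3.Crem.X _ (Pool.Agent.H654R3.Crem.query alg _ _ t)
    rw [halg ω hω t, Pool.Agent.H654R3.Crem.X_incr, hω, sub_zero]
    exact hval

/-- (3) -/
lemma quant (B : ℝ) : ∃ c δ₀ : ℝ, 0 < c ∧ 0 < δ₀ ∧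
    ∀ a : ℝ → ℝ, Admissible a → (∀ t ∈ Icc (0 : ℝ) 1, a t ≤ B) →
    ∀ δ : ℝ, 0 < δ → δ ≤ δ₀ → ∃ γ : ℝ, 0 < γ ∧ ∃ N₀ : ℕ, ∀ N : ℕ, N₀ ≤ N →
    ∀ (Ω : Type u) [MeasurableSpace Ω] (P : Measure Ω) [IsProbabilityMeasure P]
      (X : Vertex N → Ω → ℝ) (U : ℕ → Ω → ℝ) (v : ℕ → Ω → Vertex N),
      IsCREM P a N X → IsSearch P X U v →
      P {ω | (hittingTime X v ((xStar a - δ) * N) ω : ℝ≥0∞) ≤
        ENNReal.ofReal (Real.exp (c * δ ^ (-(1 / 2) : ℝ)) * N)} ≤
        ENNReal.ofReal (Real.exp (-(γ * N))) := by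
  obtain ⟨c, δ₀, hc, hδ₀, hmain⟩ := Pool.Agent.H13.CQ.crem_sharp.{u} (max B 0) (le_max_right _ _)
  refine ⟨c, δ₀, hc, hδ₀, ?_⟩
  intro a ha hB δ hδ hδ1
  obtain ⟨γ, hγ, N₀, hN₀⟩ := hmain a ha.nonneg
    (fun t ht => (hB t ht).trans (le_max_left _ _)) ha.ae_continuous ha.integral_eq_one δ hδ hδ1
  refine ⟨γ, hγ, N₀, ?_⟩
  intro N hN Ω _ P _ X U v hX hv
  exact transfer a N _ _ _ (fun Ω _ P _ ξ U hξ hU hi hl alg => hN₀ N hN Ω P ξ U hξ hU hi hl alg)
    Ω P X U v hX hv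

/-- (4) -/
lemma brw : ∃ c K δ₀ : ℝ, 0 < c ∧ 0 < K ∧ 0 < δ₀ ∧ ∀ N : ℕ, 1 ≤ N → ∀ δ : ℝ,
    K * (N : ℝ) ^ (-(2 / 3) : ℝ) ≤ δ → δ ≤ δ₀ →
    ∀ (Ω : Type u) [MeasurableSpace Ω] (P : Measure Ω) [IsProbabilityMeasure P]
      (X : Vertex N → Ω → ℝ) (U : ℕ → Ω → ℝ) (v : ℕ → Ω → Vertex N),
      IsCREM P (fun _ => 1) N X → IsSearch P X U v →
      P {ω | (hittingTime X v ((xStar (fun _ => 1) - δ) * N) ω : ℝ≥0∞) ≤
        ENNReal.ofReal (Real.exp (c * δ ^ (-(1 / 2) : ℝ)) * N)} ≤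
        ENNReal.ofReal (Real.exp (-(δ * N))) := by
  obtain ⟨c, K, δ₀, hc, hK, hδ₀, hmain⟩ := Pool.Agent.H13.CQ.brw_sharp.{u}
  refine ⟨c, K, δ₀, hc, hK, hδ₀, ?_⟩
  intro N hN δ hδ hδ1 Ω _ P _ X U v hX hv
  have hx : xStar (fun _ => 1) = √(2 * Real.log 2) := by
    unfold xStar
    simp
  rw [hx]
  exact transfer (fun _ => 1) N _ _ _
    (fun Ω _ P _ ξ U hξ hU hi hl alg => hmain N hN δ hδ hδ1 Ω P ξ U hξ hU hi hl alg) Ω P X U v hX hv

/-- (2) -/
lemma expo (a : ℝ → ℝ) (ha : Admissible a) (g : ℕ → ℝ)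
    (hg : g =o[atTop] (fun N : ℕ => (N : ℝ))) (C : ℝ) :
    ∃ γ : ℝ, 0 < γ ∧ ∃ N₀ : ℕ, ∀ N : ℕ, N₀ ≤ N →
    ∀ (Ω : Type u) [MeasurableSpace Ω] (P : Measure Ω) [IsProbabilityMeasure P]
      (X : Vertex N → Ω → ℝ) (U : ℕ → Ω → ℝ) (v : ℕ → Ω → Vertex N),
      IsCREM P a N X → IsSearch P X U v →
      P {ω | (hittingTime X v (xStar a * N - g N) ω : ℝ≥0∞) ≤ ENNReal.ofReal (C * N)} ≤
        ENNReal.ofReal (Real.exp (-(γ * N))) := by
  obtain ⟨B, hB⟩ := ha.bounded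
  obtain ⟨c, δ₀, hc, hδ₀, hmain⟩ := quant.{u} B
  set w : ℝ := |C| + 1 with hw
  have hw0 : 0 < w := by positivity
  set δ : ℝ := min δ₀ ((c / w) ^ 2) with hδ
  have hδ0 : 0 < δ := lt_min hδ₀ (by positivity)
  have hCle : C ≤ Real.exp (c * δ ^ (-(1 / 2) : ℝ)) := by
    have h1 : δ ≤ (c / w) ^ 2 := min_le_right _ _
    have h2 : ((c / w) ^ 2 : ℝ) ^ (-(1 / 2) : ℝ) ≤ δ ^ (-(1 / 2) : ℝ) :=
      Real.rpow_le_rpow_of_nonpos hδ0 h1 (by norm_num)
    have h3 : ((c / w) ^ 2 : ℝ) ^ (-(1 / 2) : ℝ) = w / c := by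
      rw [← Real.rpow_natCast, ← Real.rpow_mul (by positivity)]
      norm_num
      rw [Real.rpow_neg_one, inv_div]
    rw [h3] at h2
    have h4 : w ≤ c * δ ^ (-(1 / 2) : ℝ) := by
      rw [div_le_iff₀ hc] at h2
      linarith
    have h5 := Real.add_one_le_exp (c * δ ^ (-(1 / 2) : ℝ))
    have h6 := le_abs_self C
    linarith
  obtain ⟨γ, hγ, N₀, hN₀⟩ := hmain a ha hB δ hδ0 (min_le_left _ _)
  obtain ⟨N₁, hN₁⟩ := eventually_atTop.1 (hg.bound hδ0)
  refine ⟨γ, hγ, max N₀ N₁, ?_⟩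
  intro N hN Ω _ P _ X U v hX hv
  have h1 := hN₀ N ((le_max_left _ _).trans hN) Ω P X U v hX hv
  refine le_trans (measure_mono ?_) h1
  intro ω hω
  have hω' : (hittingTime X v (xStar a * N - g N) ω : ℝ≥0∞) ≤ ENNReal.ofReal (C * N) := hω
  show (hittingTime X v ((xStar a - δ) * N) ω : ℝ≥0∞) ≤
    ENNReal.ofReal (Real.exp (c * δ ^ (-(1 / 2) : ℝ)) * N)
  have h2 := hN₁ N ((le_max_right _ _).trans hN)
  rw [Real.norm_eq_abs, Real.norm_eq_abs, abs_of_nonneg (Nat.cast_nonneg N : (0:ℝ) ≤ (N:ℝ))] at h2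
  have h3 : (xStar a - δ) * N ≤ xStar a * N - g N := by
    have := le_abs_self (g N)
    linarith
  have h4 : (hittingTime X v ((xStar a - δ) * N) ω : ℝ≥0∞)
      ≤ (hittingTime X v (xStar a * N - g N) ω : ℝ≥0∞) :=
    ENat.toENNReal_mono (hittingTime_mono X v h3 ω)
  refine h4.trans (hω'.trans (ENNReal.ofReal_le_ofReal ?_))
  gcongr

/-- (1) Q1: for every admissible `a`, every `g(N) = o(N)`, every sequence of search algorithms and
every `C`, `P(τ_N ≤ C N) → 0`. (2) The same with an exponential bound, uniformly over all search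
algorithms. (3) The lower bound `exp(c δ^(-1/2)) N` for the level `(x_* - δ) N`. (4) The finite size
form of (3) for the branching random walk. -/
theorem result :
    (∀ a : ℝ → ℝ, Admissible a → ∀ g : ℕ → ℝ, g =o[atTop] (fun N : ℕ => (N : ℝ)) →
      ∀ (Ω : ℕ → Type u) [∀ N, MeasurableSpace (Ω N)] (P : ∀ N, Measure (Ω N))
        [∀ N, IsProbabilityMeasure (P N)]
        (X : ∀ N, Vertex N → Ω N → ℝ) (U : ∀ N, ℕ → Ω N → ℝ) (v : ∀ N, ℕ → Ω N → Vertex N),
        (∀ N, IsCREM (P N) a N (X N)) → (∀ N, IsSearch (P N) (X N) (U N) (v N)) → ∀ C : ℝ,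
        Tendsto (fun N : ℕ => P N {ω | (hittingTime (X N) (v N) (xStar a * N - g N) ω : ℝ≥0∞) ≤
          ENNReal.ofReal (C * N)}) atTop (𝓝 0)) ∧
    (∀ a : ℝ → ℝ, Admissible a → ∀ g : ℕ → ℝ, g =o[atTop] (fun N : ℕ => (N : ℝ)) → ∀ C : ℝ,
      ∃ γ : ℝ, 0 < γ ∧ ∃ N₀ : ℕ, ∀ N : ℕ, N₀ ≤ N →
      ∀ (Ω : Type u) [MeasurableSpace Ω] (P : Measure Ω) [IsProbabilityMeasure P]
        (X : Vertex N → Ω → ℝ) (U : ℕ → Ω → ℝ) (v : ℕ → Ω → Vertex N),
        IsCREM P a N X → IsSearch P X U v →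
        P {ω | (hittingTime X v (xStar a * N - g N) ω : ℝ≥0∞) ≤ ENNReal.ofReal (C * N)} ≤
          ENNReal.ofReal (Real.exp (-(γ * N)))) ∧
    (∀ B : ℝ, ∃ c δ₀ : ℝ, 0 < c ∧ 0 < δ₀ ∧
      ∀ a : ℝ → ℝ, Admissible a → (∀ t ∈ Icc (0 : ℝ) 1, a t ≤ B) →
      ∀ δ : ℝ, 0 < δ → δ ≤ δ₀ → ∃ γ : ℝ, 0 < γ ∧ ∃ N₀ : ℕ, ∀ N : ℕ, N₀ ≤ N →
      ∀ (Ω : Type u) [MeasurableSpace Ω] (P : Measure Ω) [IsProbabilityMeasure P]
        (X : Vertex N → Ω → ℝ) (U : ℕ → Ω → ℝ) (v : ℕ → Ω → Vertex N),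
        IsCREM P a N X → IsSearch P X U v →
        P {ω | (hittingTime X v ((xStar a - δ) * N) ω : ℝ≥0∞) ≤
          ENNReal.ofReal (Real.exp (c * δ ^ (-(1 / 2) : ℝ)) * N)} ≤
          ENNReal.ofReal (Real.exp (-(γ * N)))) ∧
    (∃ c K δ₀ : ℝ, 0 < c ∧ 0 < K ∧ 0 < δ₀ ∧ ∀ N : ℕ, 1 ≤ N → ∀ δ : ℝ,
      K * (N : ℝ) ^ (-(2 / 3) : ℝ) ≤ δ → δ ≤ δ₀ →
      ∀ (Ω : Type u) [MeasurableSpace Ω] (P : Measure Ω) [IsProbabilityMeasure P]
        (X : Vertex N → Ω → ℝ) (U : ℕ → Ω → ℝ) (v : ℕ → Ω → Vertex N),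
        IsCREM P (fun _ => 1) N X → IsSearch P X U v →
        P {ω | (hittingTime X v ((xStar (fun _ => 1) - δ) * N) ω : ℝ≥0∞) ≤
          ENNReal.ofReal (Real.exp (c * δ ^ (-(1 / 2) : ℝ)) * N)} ≤
          ENNReal.ofReal (Real.exp (-(δ * N)))) := by
  refine ⟨?_, fun a ha g hg C => expo.{u} a ha g hg C, quant.{u}, brw.{u}⟩
  intro a ha g hg Ω _ P _ X U v hX hv C
  obtain ⟨γ, hγ, N₀, hN₀⟩ := expo.{u} a ha g hg C
  have hlim : Tendsto (fun N : ℕ => ENNReal.ofReal (Real.exp (-(γ * N)))) atTop (𝓝 0) := by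
    rw [← ENNReal.ofReal_zero]
    apply ENNReal.tendsto_ofReal
    apply Real.tendsto_exp_neg_atTop_nhds_zero.comp
    exact Tendsto.const_mul_atTop hγ tendsto_natCast_atTop_atTop
  refine tendsto_of_tendsto_of_tendsto_of_le_of_le' tendsto_const_nhds hlim
    (Eventually.of_forall (fun _ => bot_le)) ?_
  filter_upwards [eventually_ge_atTop N₀] with N hN
  exact hN₀ N hN (Ω N) (P N) (X N) (U N) (v N) (hX N) (hv N)

end Pool.Agent.Results.MP_f9dad2_pr.OptimalExponent
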